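import Mathlib
import Pool.Agent.H.MP_ca57f4_an.A

namespace Pool.Agent.Results.MP_ca57f4_an.No

/-- `y` lies on the line `γ_z`; for `z = 0` this is the line through `0` with direction
`w / |w|`, otherwise the line through `z` with direction `(-z₂, z₁) / |z|`. -/
def onLine (w z y : ℤ × ℤ) : Prop :=
  if z = 0 then
    ∃ t : ℝ, (y.1 : ℝ) = t * (w.1 / √(w.1 ^ 2 + w.2 ^ 2)) ∧
      (y.2 : ℝ) = t * (w.2 / √(w.1 ^ 2 + w.2 ^ 2))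
  else
    ∃ t : ℝ, (y.1 : ℝ) = z.1 + t * (-z.2 / √(z.1 ^ 2 + z.2 ^ 2)) ∧
      (y.2 : ℝ) = z.2 + t * (z.1 / √(z.1 ^ 2 + z.2 ^ 2))

theorem result (w : ℤ × ℤ) (hw : w ≠ 0) : ∃ f : ℤ × ℤ → ℂ, f ≠ 0 ∧
    (∃ ε : ℝ, 0 < ε ∧ ∃ C : ℝ, ∀ x : ℤ × ℤ, x ≠ 0 →
      ‖f x‖ ≤ C * √((x.1 : ℝ) ^ 2 + (x.2 : ℝ) ^ 2) ^ (-(1 + ε))) ∧
    ∀ z : ℤ × ℤ, HasSum (fun y : {y : ℤ × ℤ // onLine w z y} => f y) 0 :=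
  Pool.Agent.H.MP_ca57f4_an.main w hw

end Pool.Agent.Results.MP_ca57f4_an.No
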